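import Pool.Agent.helper74.VQ.SpecA

/-!
# MP_07c750, project VQ: row VDM (facts for both settings)
-/

set_option autoImplicit false

open scoped MatrixGroups ContDiff Topology UpperHalfPlane ComplexConjugate ENNReal
open UpperHalfPlane MeasureTheory Filter Set

namespace Pool.Agent.VQ

open Pool.Agent.RS

noncomputable section

theorem VDM_prod (f : SL(2, ℝ) → SL(2, ℝ)) (hf : MeasurePreserving f mG mG) (W : Set ℝ) (hW : MeasurableSet W) :
    MeasurePreserving (fun p : SL(2, ℝ) × ℝ => (f p.1, p.2)) (mP.restrict (univ ×ˢ W)) (mP.restrict (univ ×ˢ W)) := by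
  haveI : SigmaFinite mG := A_GMG.2.2.1
  have h1 : MeasurePreserving (fun p : SL(2, ℝ) × ℝ => (f p.1, p.2)) mP mP :=
    hf.prod (MeasurePreserving.id (volume : Measure ℝ))
  have h2 := h1.restrict_preimage (MeasurableSet.univ.prod hW)
  have e : (fun p : SL(2, ℝ) × ℝ => (f p.1, p.2)) ⁻¹' (univ ×ˢ W) = univ ×ˢ W := by
    ext p; simp
  rwa [e] at h2

theorem VDM_left (g : SL(2, ℝ)) : MeasurePreserving (fun x : SL(2, ℝ) => g * x) mG mG :=
  ⟨(continuous_const.mul continuous_id).measurable, A_GLI g⟩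

theorem VDM_right (g : SL(2, ℝ)) : MeasurePreserving (fun x : SL(2, ℝ) => x * g) mG mG :=
  ⟨(continuous_id.mul continuous_const).measurable, A_GRI g⟩

theorem VDM_ball (b : ℝ) : mG {g : SL(2, ℝ) | dist (g • I : ℍ) I ≤ b} < ⊤ := by
  have h1 : IsCompact {g : SL(2, ℝ) | (g • I : ℍ) ∈ Metric.closedBall (I : ℍ) b} :=
    A_GLC.2.2.1 _ (isCompact_closedBall _ _)
  exact A_GMG.2.1 _ h1

theorem VDM_act (Γ : Subgroup SL(2, ℝ)) (γ : Γ) :
    MeasurePreserving (fun z : ℍ => γ • z) (volume : Measure ℍ) volume := by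
  haveI : SMulInvariantMeasure Γ ℍ (volume : Measure ℍ) := QU.INV.2.1 Γ
  exact measurePreserving_smul γ volume

theorem VDM_dom (Γ : Subgroup SL(2, ℝ)) (F : Set ℍ) (h : Dm Γ F) :
    Countable Γ ∧ MeasurableSet F ∧ ∀ z : ℍ, ∃! γ : Γ, γ • z ∈ F := by
  rcases h with ⟨h1, h2⟩ | ⟨rfl, rfl⟩
  · exact ⟨(QU.A_DOB Γ F h1 h2).1, h2.meas, h2.uniq⟩
  · refine ⟨inferInstance, MeasurableSet.univ, fun z => ⟨1, mem_univ _, fun γ _ => Subsingleton.elim _ _⟩⟩

theorem VDM_proof : VDM_stmt := by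
  intro Γ F hD
  obtain ⟨h1, h2, h3⟩ := VDM_dom Γ F hD
  have hdG : MeasurableSet (dG F) := (A_GMG.1 F h2).1
  refine ⟨h1, h2, h3, VDM_act Γ, fun W hW => ?_⟩
  haveI : SigmaFinite mG := A_GMG.2.2.1
  haveI : SigmaFinite mP := by unfold mP; infer_instance
  refine ⟨inferInstance, fun g => VDM_prod _ (VDM_left g) W hW, fun g => VDM_prod _ (VDM_right g) W hW, ?_, hdG, fun b => ?_⟩
  · rw [Measure.restrict_restrict (hdG.prod MeasurableSet.univ), Set.prod_inter_prod, Set.inter_univ, Set.univ_inter]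
  · show (mG.prod volume) _ < ⊤
    rw [Measure.prod_prod]
    refine ENNReal.mul_lt_top (VDM_ball b) ?_
    exact lt_of_le_of_lt (measure_mono Set.inter_subset_right) (by rw [Real.volume_Icc]; exact ENNReal.ofReal_lt_top)

end

end Pool.Agent.VQ
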